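import Pool.Agent.Zk72.NS.Stm

/-!
# Module REC1 (for helper72): a sum over the edges near a side of a rectangle
-/

set_option autoImplicit false

namespace Pool.Agent.Zk36.NS

open H974 Finset H342P H984P H984N Pool.Agent.Zk36.TT Pool.Agent.Zk72.NS

theorem sd_le {u v : Vtx} {k : ℤ} : sd u v ≤ k ↔
    (u.1 - k ≤ v.1 ∧ v.1 ≤ u.1 + k) ∧ (u.2 - k ≤ v.2 ∧ v.2 ≤ u.2 + k) := by
  unfold sd
  rw [max_le_iff, abs_le, abs_le]
  omega

theorem le_sd {u v : Vtx} {k : ℤ} : k ≤ sd u v ↔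
    (v.1 ≤ u.1 - k ∨ u.1 + k ≤ v.1 ∨ v.2 ≤ u.2 - k ∨ u.2 + k ≤ v.2) := by
  unfold sd
  rw [le_max_iff, le_abs, le_abs]
  omega

theorem sd_nonneg (u v : Vtx) : 0 ≤ sd u v := by
  unfold sd
  exact le_max_of_le_left (abs_nonneg _)

theorem sd_cast (u v : Vtx) : (((sd u v).toNat : ℕ) : ℤ) = sd u v :=
  Int.toNat_of_nonneg (sd_nonneg u v)

/-- power sums -/
theorem ps {α : ℝ} (h0 : 0 < α) (h1 : α < 1) (n : ℕ) :
    ∑ j ∈ range n, ((j : ℝ) + 1) ^ (-α) ≤ (n : ℝ) ^ (1 - α) / (1 - α) := by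
  have hb : 0 < 1 - α := by linarith
  induction n with
  | zero => simp [Real.zero_rpow hb.ne']
  | succ n ih =>
    rw [Finset.sum_range_succ]
    have hn : (0:ℝ) < (n:ℝ) + 1 := by positivity
    have h2 : (1 + (-(1 / ((n:ℝ) + 1)))) ^ (1 - α) ≤ 1 + (1 - α) * (-(1 / ((n:ℝ) + 1))) := by
      apply rpow_one_add_le_one_add_mul_self
      · have : 1 / ((n:ℝ) + 1) ≤ 1 := by
          rw [div_le_one hn]
          linarith [(Nat.cast_nonneg n : (0:ℝ) ≤ n)]
        linarith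
      · exact hb.le
      · linarith
    have h3 : (n:ℝ) ^ (1 - α) = ((n:ℝ) + 1) ^ (1 - α) * (1 + (-(1 / ((n:ℝ) + 1)))) ^ (1 - α) := by
      have e : 1 + (-(1 / ((n:ℝ) + 1))) = (n:ℝ) / (n + 1) := by
        field_simp
        ring
      rw [e, ← Real.mul_rpow hn.le (by positivity)]
      congr 1
      field_simp
    have h4 : ((n:ℝ) + 1) ^ (-α) = ((n:ℝ) + 1) ^ (1 - α) * (1 / ((n:ℝ) + 1)) := by
      rw [one_div, ← Real.rpow_neg_one, ← Real.rpow_add hn]
      congr 1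
      ring
    have h5 := mul_le_mul_of_nonneg_left h2 (Real.rpow_nonneg hn.le (1 - α))
    rw [← h3] at h5
    push_cast
    rw [le_div_iff₀ hb] at ih ⊢
    rw [h4]
    nlinarith

/-- product sums -/
theorem sum_inj {ι : Type} [Fintype ι] [DecidableEq ι] {W : Finset Edg} (φ : Edg → ℕ × ℕ × ι)
    (hinj : ∀ f ∈ W, ∀ g ∈ W, φ f = φ g → f = g) (n : ℕ)
    (hφ : ∀ f ∈ W, (φ f).1 < n ∧ (φ f).2.1 < n) (F G : ℕ → ℝ) (hF : ∀ i, 0 ≤ F i)
    (hG : ∀ i, 0 ≤ G i) :
    ∑ f ∈ W, F (φ f).1 * G (φ f).2.1 ≤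
      Fintype.card ι * ((∑ i ∈ range n, F i) * (∑ j ∈ range n, G j)) := by
  classical
  have h1 : ∑ f ∈ W, F (φ f).1 * G (φ f).2.1 = ∑ z ∈ W.image φ, F z.1 * G z.2.1 := by
    rw [Finset.sum_image]
    intro f hf g hg h
    exact hinj f hf g hg h
  have h2 : W.image φ ⊆ range n ×ˢ (range n ×ˢ (univ : Finset ι)) := by
    intro z hz
    obtain ⟨f, hf, rfl⟩ := Finset.mem_image.1 hz
    have := hφ f hf
    simp only [Finset.mem_product, Finset.mem_range, Finset.mem_univ, and_true]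
    exact this
  rw [h1]
  refine (Finset.sum_le_sum_of_subset_of_nonneg h2 fun z _ _ =>
    mul_nonneg (hF _) (hG _)).trans ?_
  rw [Finset.sum_product]
  simp only
  have h3 : ∀ i ∈ range n, ∑ y ∈ range n ×ˢ (univ : Finset ι), F i * G y.1 =
      F i * (Fintype.card ι * ∑ j ∈ range n, G j) := by
    intro i _
    rw [Finset.sum_product]
    simp only [Finset.sum_const, Finset.card_univ, nsmul_eq_mul]
    rw [Finset.mul_sum, Finset.mul_sum]
    apply Finset.sum_congr rfl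
    intro j _
    ring
  rw [Finset.sum_congr rfl h3, ← Finset.sum_mul]
  apply le_of_eq
  ring

/-- distance to the complement of the rectangle -/
def bdS (a₁ a₂ b₁ b₂ : ℤ) (w : Vtx) : ℤ :=
  min (min (w.1 - a₁) (a₂ - w.1)) (min (w.2 - b₁) (b₂ - w.2))

/-- the size of the box in which the edge has four arms -/
def ms (a₁ a₂ b₁ b₂ : ℤ) (v w : Vtx) : ℕ :=
  min ((bdS a₁ a₂ b₁ b₂ w).toNat - 2) ((sd v w).toNat / 8)

/-- the edges at which the change may happen -/
noncomputable def WW (a₁ a₂ b₁ b₂ : ℤ) (v : Vtx) (k R : ℕ) : Finset Edg :=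
  (RE a₁ a₂ b₁ b₂).filter
    (fun f => 32 * k ≤ (sd v (src f)).toNat ∧ 4 * (sd v (src f)).toNat ≤ R)

theorem rpow_low {x y c α : ℝ} (hx : 0 < x) (hc : 1 ≤ c) (hy : 0 < y) (h : x ≤ c * y) (h0 : 0 ≤ α)
    (h1 : α ≤ 1) : y ^ (-α) ≤ c * x ^ (-α) := by
  have hc0 : 0 < c := by linarith
  have h2 : x / c ≤ y := by
    rw [div_le_iff₀ hc0]
    linarith
  have h3 : y ^ (-α) ≤ (x / c) ^ (-α) :=
    Real.rpow_le_rpow_of_nonpos (by positivity) h2 (by linarith)
  refine h3.trans ?_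
  rw [Real.div_rpow hx.le hc0.le, div_eq_mul_inv, ← Real.rpow_neg hc0.le, neg_neg, mul_comm]
  refine mul_le_mul_of_nonneg_right ?_ (Real.rpow_nonneg hx.le _)
  calc c ^ α ≤ c ^ (1:ℝ) := Real.rpow_le_rpow_of_exponent_le hc h1
    _ = c := Real.rpow_one c

/-- abstract form of the sum: `x` is the distance to the near side and `y` the other coordinate -/
theorem sum_abs {W : Finset Edg} {v : Vtx} {R : ℕ} (hR : 1 ≤ R) (m : Edg → ℕ) (x y : Edg → ℤ)
    (hinj : ∀ f ∈ W, ∀ g ∈ W, x f = x g → y f = y g → src f = src g)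
    (hs : ∀ f ∈ W, 1 ≤ (sd v (src f)).toNat ∧ 4 * (sd v (src f)).toNat ≤ R)
    (hx : ∀ f ∈ W, 0 ≤ x f ∧ x f ≤ R)
    (hy : ∀ f ∈ W, |y f| ≤ (sd v (src f)).toNat)
    (hm : ∀ f ∈ W, x f + 1 ≤ 3 * ((m f : ℤ) + 1) ∨ (sd v (src f)).toNat ≤ 8 * (m f + 1)) :
    ∑ f ∈ W, ((m f : ℝ) + 1) ^ (-(11/12) : ℝ) * ((sd v (src f)).toNat : ℝ) ^ (-(1/3) : ℝ) ≤
      100000 * (R : ℝ) ^ (3/4 : ℝ) := by
  have hR0 : (0:ℝ) < R := by exact_mod_cast hR
  have hR1 : (1:ℝ) ≤ R := by exact_mod_cast hR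
  set s : Edg → ℕ := fun f => (sd v (src f)).toNat with hsdef
  have key : ∀ f ∈ W, ((m f : ℝ) + 1) ^ (-(11/12) : ℝ) * (s f : ℝ) ^ (-(1/3) : ℝ) ≤
      6 * ((((x f).toNat : ℝ) + 1) ^ (-(11/12) : ℝ) *
        (((y f).natAbs : ℝ) + 1) ^ (-(1/3) : ℝ)) +
      32 * ((((((src f).1 - v.1).natAbs : ℕ) : ℝ) + 1) ^ (-(5/8) : ℝ) *
        (((((src f).2 - v.2).natAbs : ℕ) : ℝ) + 1) ^ (-(5/8) : ℝ)) := by
    intro f hf
    have hs1 : 1 ≤ s f := (hs f hf).1
    have hs0 : (0:ℝ) < s f := by exact_mod_cast hs1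
    have hs1' : (1:ℝ) ≤ s f := by exact_mod_cast hs1
    have hm0 : (0:ℝ) < (m f : ℝ) + 1 := by positivity
    have q1 : 0 ≤ (((x f).toNat : ℝ) + 1) ^ (-(11/12) : ℝ) := by positivity
    have q2 : 0 ≤ (((y f).natAbs : ℝ) + 1) ^ (-(1/3) : ℝ) := by positivity
    have q3 : 0 ≤ (((((src f).1 - v.1).natAbs : ℕ) : ℝ) + 1) ^ (-(5/8) : ℝ) := by positivity
    have q4 : 0 ≤ (((((src f).2 - v.2).natAbs : ℕ) : ℝ) + 1) ^ (-(5/8) : ℝ) := by positivity
    have q5 : 0 ≤ (s f : ℝ) ^ (-(1/3) : ℝ) := by positivity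
    rcases hm f hf with h | h
    · have g1 : ((m f : ℝ) + 1) ^ (-(11/12) : ℝ) ≤ 3 * (((x f).toNat : ℝ) + 1) ^ (-(11/12) : ℝ) := by
        apply rpow_low (by positivity) (by norm_num) hm0 _ (by norm_num) (by norm_num)
        have h2 := (hx f hf).1
        have h3 : ((x f).toNat : ℤ) + 1 ≤ 3 * ((m f : ℤ) + 1) := by omega
        exact_mod_cast h3
      have g2 : (s f : ℝ) ^ (-(1/3) : ℝ) ≤ 2 * (((y f).natAbs : ℝ) + 1) ^ (-(1/3) : ℝ) := by
        apply rpow_low (by positivity) (by norm_num) hs0 _ (by norm_num) (by norm_num)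
        have h2 := hy f hf
        have h3 : (y f).natAbs + 1 ≤ 2 * s f := by
          have h4 : |y f| ≤ (s f : ℤ) := h2
          rw [abs_le] at h4
          omega
        exact_mod_cast h3
      have g3 := mul_le_mul g1 g2 q5 (by positivity)
      nlinarith [mul_nonneg q3 q4]
    · have g1 : ((m f : ℝ) + 1) ^ (-(11/12) : ℝ) ≤ 8 * (s f : ℝ) ^ (-(11/12) : ℝ) := by
        apply rpow_low hs0 (by norm_num) hm0 _ (by norm_num) (by norm_num)
        exact_mod_cast h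
      have g2 : (s f : ℝ) ^ (-(5/8) : ℝ) ≤
          2 * (((((src f).1 - v.1).natAbs : ℕ) : ℝ) + 1) ^ (-(5/8) : ℝ) := by
        apply rpow_low (by positivity) (by norm_num) hs0 _ (by norm_num) (by norm_num)
        have h3 : ((src f).1 - v.1).natAbs + 1 ≤ 2 * s f := by
          have h4 := sd_cast v (src f)
          have h5 := (sd_le (u := v) (v := src f) (k := sd v (src f))).1 le_rfl
          have h6 : (s f : ℤ) = sd v (src f) := h4
          omega
        exact_mod_cast h3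
      have g3 : (s f : ℝ) ^ (-(5/8) : ℝ) ≤
          2 * (((((src f).2 - v.2).natAbs : ℕ) : ℝ) + 1) ^ (-(5/8) : ℝ) := by
        apply rpow_low (by positivity) (by norm_num) hs0 _ (by norm_num) (by norm_num)
        have h3 : ((src f).2 - v.2).natAbs + 1 ≤ 2 * s f := by
          have h4 := sd_cast v (src f)
          have h5 := (sd_le (u := v) (v := src f) (k := sd v (src f))).1 le_rfl
          have h6 : (s f : ℤ) = sd v (src f) := h4
          omega
        exact_mod_cast h3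
      have g4 : (s f : ℝ) ^ (-(11/12) : ℝ) * (s f : ℝ) ^ (-(1/3) : ℝ) =
          (s f : ℝ) ^ (-(5/8) : ℝ) * (s f : ℝ) ^ (-(5/8) : ℝ) := by
        rw [← Real.rpow_add hs0, ← Real.rpow_add hs0]
        congr 1
        norm_num
      have g5 := mul_le_mul g2 g3 (by positivity) (by positivity)
      have g6 := mul_le_mul_of_nonneg_right g1 q5
      rw [mul_assoc, g4] at g6
      nlinarith [mul_nonneg q1 q2]
  refine (Finset.sum_le_sum key).trans ?_
  rw [Finset.sum_add_distrib, ← Finset.mul_sum, ← Finset.mul_sum]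
  have hn : ((R + 1 : ℕ) : ℝ) ≤ 2 * R := by
    push_cast
    linarith
  have pw : ∀ {α : ℝ}, 0 < α → α < 1 → ∑ j ∈ range (R + 1), ((j : ℝ) + 1) ^ (-α) ≤
      2 / (1 - α) * (R : ℝ) ^ (1 - α) := by
    intro α h0 h1
    refine (ps h0 h1 (R + 1)).trans ?_
    rw [div_mul_eq_mul_div]
    apply div_le_div_of_nonneg_right _ (by linarith)
    calc (((R + 1 : ℕ) : ℝ)) ^ (1 - α) ≤ (2 * (R : ℝ)) ^ (1 - α) :=
          Real.rpow_le_rpow (by positivity) hn (by linarith)
      _ = 2 ^ (1 - α) * (R : ℝ) ^ (1 - α) := Real.mul_rpow (by norm_num) hR0.le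
      _ ≤ 2 * (R : ℝ) ^ (1 - α) := by
          refine mul_le_mul_of_nonneg_right ?_ (by positivity)
          calc (2:ℝ) ^ (1 - α) ≤ 2 ^ (1:ℝ) :=
                Real.rpow_le_rpow_of_exponent_le (by norm_num) (by linarith)
            _ = 2 := Real.rpow_one 2
  have S1 := sum_inj (W := W) (ι := Bool × Bool)
    (fun f => ((x f).toNat, (y f).natAbs, decide (0 ≤ y f), f.2.2))
    (by
      intro f hf g hg h
      simp only [Prod.mk.injEq, decide_eq_decide] at h
      obtain ⟨h1, h2, h3, h4⟩ := h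
      have h5 := (hx f hf).1
      have h6 := (hx g hg).1
      have h7 := hinj f hf g hg (by omega) (by omega)
      obtain ⟨f1, f2, f3⟩ := f
      obtain ⟨g1, g2, g3⟩ := g
      simp only [src_mk, Prod.mk.injEq] at h7
      simp only at h4
      simp only [Prod.mk.injEq]
      exact ⟨h7.1, h7.2, h4⟩)
    (R + 1)
    (by
      intro f hf
      have h1 := hx f hf
      have h2 := hy f hf
      have h3 := (hs f hf).2
      rw [abs_le] at h2
      simp only
      omega)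
    (fun i => ((i : ℝ) + 1) ^ (-(11/12) : ℝ)) (fun i => ((i : ℝ) + 1) ^ (-(1/3) : ℝ))
    (fun i => by positivity) (fun i => by positivity)
  have S2 := sum_inj (W := W) (ι := Bool × Bool × Bool)
    (fun f => (((src f).1 - v.1).natAbs, ((src f).2 - v.2).natAbs,
      decide (0 ≤ (src f).1 - v.1), decide (0 ≤ (src f).2 - v.2), f.2.2))
    (by
      intro f _ g _ h
      simp only [Prod.mk.injEq, decide_eq_decide] at h
      obtain ⟨h1, h2, h3, h4, h5⟩ := h
      obtain ⟨f1, f2, f3⟩ := f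
      obtain ⟨g1, g2, g3⟩ := g
      simp only [src_mk] at h1 h2 h3 h4
      simp only at h5
      simp only [Prod.mk.injEq]
      exact ⟨by omega, by omega, h5⟩)
    (R + 1)
    (by
      intro f hf
      have h3 := (hs f hf).2
      have h4 := sd_cast v (src f)
      have h5 := (sd_le (u := v) (v := src f) (k := sd v (src f))).1 le_rfl
      simp only
      omega)
    (fun i => ((i : ℝ) + 1) ^ (-(5/8) : ℝ)) (fun i => ((i : ℝ) + 1) ^ (-(5/8) : ℝ))
    (fun i => by positivity) (fun i => by positivity)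
  simp only at S1 S2
  have T1 := pw (α := 11/12) (by norm_num) (by norm_num)
  have T2 := pw (α := 1/3) (by norm_num) (by norm_num)
  have T3 := pw (α := 5/8) (by norm_num) (by norm_num)
  have T12 := mul_le_mul T1 T2 (Finset.sum_nonneg fun i _ => by positivity) (by positivity)
  have T33 := mul_le_mul T3 T3 (Finset.sum_nonneg fun i _ => by positivity) (by positivity)
  have e1 : (R : ℝ) ^ (1 - 11/12 : ℝ) * (R : ℝ) ^ (1 - 1/3 : ℝ) = (R : ℝ) ^ (3/4 : ℝ) := by
    rw [← Real.rpow_add hR0]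
    norm_num
  have e2 : (R : ℝ) ^ (1 - 5/8 : ℝ) * (R : ℝ) ^ (1 - 5/8 : ℝ) = (R : ℝ) ^ (3/4 : ℝ) := by
    rw [← Real.rpow_add hR0]
    norm_num
  have e1' : 2 / (1 - 11/12 : ℝ) * (R : ℝ) ^ (1 - 11/12 : ℝ) *
      (2 / (1 - 1/3) * (R : ℝ) ^ (1 - 1/3 : ℝ)) = 72 * (R : ℝ) ^ (3/4 : ℝ) := by
    rw [← e1]
    ring
  have e2' : 2 / (1 - 5/8 : ℝ) * (R : ℝ) ^ (1 - 5/8 : ℝ) *
      (2 / (1 - 5/8) * (R : ℝ) ^ (1 - 5/8 : ℝ)) = 256/9 * (R : ℝ) ^ (3/4 : ℝ) := by
    rw [← e2]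
    ring
  rw [e1'] at T12
  rw [e2'] at T33
  have c1 : (Fintype.card (Bool × Bool) : ℝ) = 4 := by
    rw [Fintype.card_prod, Fintype.card_bool]; norm_num
  have c2 : (Fintype.card (Bool × Bool × Bool) : ℝ) = 8 := by
    rw [Fintype.card_prod, Fintype.card_prod, Fintype.card_bool]; norm_num
  rw [c1] at S1
  rw [c2] at S2
  have hp : 0 ≤ (R : ℝ) ^ (3/4 : ℝ) := by positivity
  nlinarith

theorem sum_WW (a₁ a₂ b₁ b₂ : ℤ) (v : Vtx) (k R : ℕ) (hk : 1 ≤ k) (hR : 128 * k ≤ R)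
    (hv : inR a₁ a₂ b₁ b₂ v) (hS : Side a₁ a₂ b₁ b₂ v k R) :
    ∑ f ∈ WW a₁ a₂ b₁ b₂ v k R, ((ms a₁ a₂ b₁ b₂ v (src f) : ℝ) + 1) ^ (-(11/12) : ℝ) *
      ((sd v (src f)).toNat : ℝ) ^ (-(1/3) : ℝ) ≤ 100000 * (R : ℝ) ^ (3/4 : ℝ) := by
  have hmem : ∀ f ∈ WW a₁ a₂ b₁ b₂ v k R,
      (a₁ ≤ (src f).1 ∧ (src f).1 ≤ a₂ ∧ b₁ ≤ (src f).2 ∧ (src f).2 ≤ b₂) ∧
      32 * k ≤ (sd v (src f)).toNat ∧ 4 * (sd v (src f)).toNat ≤ R := by
    intro f hf
    unfold WW at hf
    rw [Finset.mem_filter] at hf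
    refine ⟨?_, hf.2⟩
    have h1 := hf.1
    obtain ⟨x, y, _ | _⟩ := f
    · rw [mem_RE_false] at h1
      simp only [src_mk]
      omega
    · rw [mem_RE_true] at h1
      simp only [src_mk]
      omega
  have hsb : ∀ f : Edg, (v.1 - (sd v (src f)).toNat ≤ (src f).1 ∧
      (src f).1 ≤ v.1 + (sd v (src f)).toNat) ∧
      (v.2 - (sd v (src f)).toNat ≤ (src f).2 ∧ (src f).2 ≤ v.2 + (sd v (src f)).toNat) := by
    intro f
    have h4 := sd_cast v (src f)
    have h5 := (sd_le (u := v) (v := src f) (k := sd v (src f))).1 le_rfl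
    rw [h4]
    exact h5
  have hs : ∀ f ∈ WW a₁ a₂ b₁ b₂ v k R, 1 ≤ (sd v (src f)).toNat ∧
      4 * (sd v (src f)).toNat ≤ R := fun f hf => by
    have := (hmem f hf).2
    omega
  unfold inR at hv
  unfold Pool.Agent.Zk72.NS.Side at hS
  have e : ∀ f g : Edg, (src f).1 = (src g).1 → (src f).2 = (src g).2 → src f = src g :=
    fun f g h1 h2 => Prod.ext h1 h2
  rcases hS with hS | hS | hS | hS
  · refine sum_abs (by omega) _ (fun f => (src f).1 - a₁) (fun f => (src f).2 - v.2)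
      (fun f _ g _ h1 h2 => e f g (by omega) (by omega)) hs ?_ ?_ ?_
    · intro f hf
      have h1 := hmem f hf
      have h2 := hsb f
      omega
    · intro f hf
      have h2 := hsb f
      rw [abs_le]
      omega
    · intro f hf
      have h1 := hmem f hf
      have h2 := hsb f
      unfold ms bdS
      omega
  · refine sum_abs (by omega) _ (fun f => a₂ - (src f).1) (fun f => (src f).2 - v.2)
      (fun f _ g _ h1 h2 => e f g (by omega) (by omega)) hs ?_ ?_ ?_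
    · intro f hf
      have h1 := hmem f hf
      have h2 := hsb f
      omega
    · intro f hf
      have h2 := hsb f
      rw [abs_le]
      omega
    · intro f hf
      have h1 := hmem f hf
      have h2 := hsb f
      unfold ms bdS
      omega
  · refine sum_abs (by omega) _ (fun f => (src f).2 - b₁) (fun f => (src f).1 - v.1)
      (fun f _ g _ h1 h2 => e f g (by omega) (by omega)) hs ?_ ?_ ?_
    · intro f hf
      have h1 := hmem f hf
      have h2 := hsb f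
      omega
    · intro f hf
      have h2 := hsb f
      rw [abs_le]
      omega
    · intro f hf
      have h1 := hmem f hf
      have h2 := hsb f
      unfold ms bdS
      omega
  · refine sum_abs (by omega) _ (fun f => b₂ - (src f).2) (fun f => (src f).1 - v.1)
      (fun f _ g _ h1 h2 => e f g (by omega) (by omega)) hs ?_ ?_ ?_
    · intro f hf
      have h1 := hmem f hf
      have h2 := hsb f
      omega
    · intro f hf
      have h2 := hsb f
      rw [abs_le]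
      omega
    · intro f hf
      have h1 := hmem f hf
      have h2 := hsb f
      unfold ms bdS
      omega

end Pool.Agent.Zk36.NS
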