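import Pool.Agent.Zk72.NS.Chn
import Pool.Agent.Zk36.NS.R1Sum

/-!
# Module REC1 (for helper72): deterministic part and locality
-/

set_option autoImplicit false

namespace Pool.Agent.Zk36.NS

open H974 Finset H342P H984P H984N H12S H389NS Pool.Agent.Zk36.TT Pool.Agent.W92.DP
  Pool.Agent.Zk72.NS

theorem sd_comm (u v : Vtx) : sd u v = sd v u := by
  unfold sd
  rw [abs_sub_comm u.1, abs_sub_comm u.2]

theorem sd_tri (u v w : Vtx) : sd u w ≤ sd u v + sd v w := by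
  have h1 := (sd_le (u := u) (v := v) (k := sd u v)).1 le_rfl
  have h2 := (sd_le (u := v) (v := w) (k := sd v w)).1 le_rfl
  rw [sd_le]
  omega

theorem mem_blk {v : Vtx} {k : ℕ} {g : Edg} :
    g ∈ blk v k ↔ sd v (src g) ≤ k ∧ sd v (tgt g) ≤ k := by
  unfold blk
  rw [sd_le, sd_le]
  obtain ⟨x, y, _ | _⟩ := g
  · simp only [mem_RE_false, src_mk, tgt_false]
    omega
  · simp only [mem_RE_true, src_mk, tgt_true]
    omega

theorem gm_tgt (b : Bool) (f : Edg) : sd (src f) (tgt (gm b f)) ≤ 1 := by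
  unfold gm sd
  obtain ⟨x, y, _ | _⟩ := f <;> cases b <;> simp

/-- the open edges, or the duals of the closed edges, in `S` -/
def gS (S : Finset Edg) (b : Bool) (F : Finset Edg) : Set Edg :=
  if b then (↑(F ∩ S) : Set Edg) else dl '' (↑(S \ F) : Set Edg)

theorem mem_gS {S : Finset Edg} {b : Bool} {F : Finset Edg} {x : Edg} :
    x ∈ gS S b F ↔ ∃ g ∈ S, gm b g = x ∧ (g ∈ F ↔ b = true) := by
  unfold gS gm
  cases b
  · simp only [Bool.false_eq_true, if_false, Set.mem_image, Finset.mem_coe, Finset.mem_sdiff,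
      iff_false]
    constructor
    · rintro ⟨g, ⟨h1, h2⟩, h3⟩
      exact ⟨g, h1, h3, h2⟩
    · rintro ⟨g, h1, h3, h2⟩
      exact ⟨g, ⟨h1, h2⟩, h3⟩
  · simp only [if_true, Finset.mem_coe, Finset.mem_inter, iff_true]
    constructor
    · rintro ⟨h1, h2⟩
      exact ⟨x, h2, rfl, h1⟩
    · rintro ⟨g, h1, rfl, h2⟩
      exact ⟨h2, h1⟩

theorem gS_congr {S : Finset Edg} {b : Bool} {F F' : Finset Edg} {Y : Set Edg}
    (h : ∀ g ∈ S, gm b g ∈ Y → (g ∈ F ↔ g ∈ F')) : gS S b F ∩ Y = gS S b F' ∩ Y := by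
  ext x
  rw [Set.mem_inter_iff, Set.mem_inter_iff, mem_gS, mem_gS]
  constructor
  · rintro ⟨⟨g, h1, h2, h3⟩, h4⟩
    have h5 := h g h1 (by rw [h2]; exact h4)
    exact ⟨⟨g, h1, h2, by rw [← h5]; exact h3⟩, h4⟩
  · rintro ⟨⟨g, h1, h2, h3⟩, h4⟩
    have h5 := h g h1 (by rw [h2]; exact h4)
    exact ⟨⟨g, h1, h2, by rw [h5]; exact h3⟩, h4⟩

theorem mem_gd {b : Bool} {F : Finset Edg} {x : Edg} :
    x ∈ gd b F ↔ ∃ g, gm b g = x ∧ (g ∈ F ↔ b = true) := by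
  unfold gd gm
  cases b
  · simp only [Bool.false_eq_true, if_false, Set.mem_image, Set.mem_compl_iff, Finset.mem_coe,
      iff_false]
    constructor
    · rintro ⟨g, h2, h3⟩
      exact ⟨g, h3, h2⟩
    · rintro ⟨g, h3, h2⟩
      exact ⟨g, h2, h3⟩
  · simp only [if_true, Finset.mem_coe, iff_true]
    constructor
    · intro h1
      exact ⟨x, rfl, h1⟩
    · rintro ⟨g, rfl, h2⟩
      exact h2

theorem gS_gd {S : Finset Edg} {b : Bool} {F : Finset Edg} {Y : Set Edg}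
    (h : ∀ g, gm b g ∈ Y → g ∈ S) : gS S b F ∩ Y = gd b F ∩ Y := by
  ext x
  rw [Set.mem_inter_iff, Set.mem_inter_iff, mem_gS, mem_gd]
  constructor
  · rintro ⟨⟨g, _, h2, h3⟩, h4⟩
    exact ⟨⟨g, h2, h3⟩, h4⟩
  · rintro ⟨⟨g, h2, h3⟩, h4⟩
    exact ⟨⟨g, h g (by rw [h2]; exact h4), h2, h3⟩, h4⟩

theorem gS_flip (S : Finset Edg) (b : Bool) (F : Finset Edg) (f : Edg) :
    gS S b F \ {gm b f} ⊆ gS S b (Pool.Agent.Zk36.TT.flip f F) := by
  rintro x ⟨h1, h2⟩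
  rw [mem_gS] at h1 ⊢
  obtain ⟨g, h3, h4, h5⟩ := h1
  refine ⟨g, h3, h4, ?_⟩
  have hne : g ≠ f := by
    rintro rfl
    exact h2 h4.symm
  rw [mem_flip_ne hne]
  exact h5

/-- the edges of `S` on which the events of the annulus depend -/
def rS (S : Finset Edg) (b : Bool) (v : Vtx) (d k : ℕ) : Set Edg :=
  {h | h ∈ S ∧ gm b h ∈ blk v k ∧ gm b h ∉ blk v d}

open Classical in
/-- the same as a finite set -/
noncomputable def rF (S : Finset Edg) (b : Bool) (v : Vtx) (d k : ℕ) : Finset Edg :=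
  S.filter (fun h => gm b h ∈ blk v k ∧ gm b h ∉ blk v d)

theorem mem_rF {S : Finset Edg} {b : Bool} {v : Vtx} {d k : ℕ} {h : Edg} :
    h ∈ rF S b v d k ↔ h ∈ S ∧ gm b h ∈ blk v k ∧ gm b h ∉ blk v d := by
  unfold rF
  rw [Finset.mem_filter]

theorem rF_sub (S : Finset Edg) (b : Bool) (v : Vtx) (d k : ℕ) : rF S b v d k ⊆ S :=
  fun _ h => (mem_rF.1 h).1

theorem Cx_locS (S : Finset Edg) (b : Bool) (v : Vtx) (d k : ℕ) (F : Finset Edg) :
    Cx v d k (gS S b F) ↔ Cx v d k (gS S b (F ∩ rF S b v d k)) := by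
  unfold Cx
  rw [gS_congr (F' := F ∩ rF S b v d k)]
  intro g hg hY
  rw [Finset.mem_coe, Finset.mem_sdiff] at hY
  rw [Finset.mem_inter, mem_rF]
  tauto

theorem Lc_Cx (S : Finset Edg) (b : Bool) (v : Vtx) (d k : ℕ) :
    Lc (rF S b v d k) (Sw (fun F => Cx v d k (gS S b F))) := Lc_Sw (Cx_locS S b v d k)

/-- four arms in the box of size `m`, if `m` is not zero -/
def F4m (b : Bool) (v : Vtx) (m : ℕ) (F : Finset Edg) : Prop := 1 ≤ m → F4 b v 1 m F

theorem Lc_F4m {S : Finset Edg} {b : Bool} {v : Vtx} {m : ℕ} (hS : 1 ≤ m → blk v (m + 1) ⊆ S) :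
    Lc (rF S b v 1 m) (Sw (F4m b v m)) := by
  apply Lc_Sw
  intro F
  unfold F4m
  by_cases hm : 1 ≤ m
  · have e : rg b v 1 m = rF S b v 1 m := by
      ext h
      rw [mem_rg, mem_rF, Finset.mem_sdiff]
      constructor
      · intro h1
        exact ⟨hS hm (rg_sub b v 1 m (mem_rg.2 (Finset.mem_sdiff.2 h1))), h1⟩
      · exact fun h1 => h1.2
    rw [F4_loc b v 1 m F, e]
  · constructor
    · exact fun _ h => absurd h hm
    · exact fun _ h => absurd h hm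

/-- a connection from the box of radius `k` around `v` to distance `R` -/
def Cr (v : Vtx) (k R : ℕ) (G : Set Edg) : Prop :=
  ∃ p q, sd v p ≤ k ∧ (R : ℤ) ≤ sd v q ∧ Reach G p q

theorem Cr_mono {v : Vtx} {k R : ℕ} {G G' : Set Edg} (h : G ⊆ G') (hC : Cr v k R G) :
    Cr v k R G' := by
  obtain ⟨p, q, h1, h2, h3⟩ := hC
  exact ⟨p, q, h1, h2, h3.mono h⟩

theorem bdB_sd {v u : Vtx} {k : ℕ} (h : u ∈ bdB v k) : sd v u = k := by
  obtain ⟨h1, h2, h3⟩ := h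
  rw [abs_le] at h1 h2
  apply le_antisymm
  · rw [sd_le]
    omega
  · rw [le_sd]
    rcases h3 with h3 | h3
    · rcases abs_eq (by positivity : (0:ℤ) ≤ k) |>.1 h3 with h4 | h4 <;> omega
    · rcases abs_eq (by positivity : (0:ℤ) ≤ k) |>.1 h3 with h4 | h4 <;> omega

theorem Cx_Cr {v : Vtx} {k R : ℕ} {G : Set Edg} (h : Cx v k R G) : Cr v k R G := by
  obtain ⟨u, hu, w, hw, hr⟩ := h
  exact ⟨u, w, (bdB_sd hu).le, (bdB_sd hw).ge, hr.mono Set.inter_subset_left⟩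

theorem Cr_Cx (hE : S_EXI) {v : Vtx} {k R k' R' : ℕ} (hk : k ≤ k') (h : k' ≤ R') (hR : R' ≤ R)
    {G : Set Edg} (hC : Cr v k R G) : Cx v k' R' G := by
  obtain ⟨p, q, h1, h2, h3⟩ := hC
  obtain ⟨u, hu, w, hw, h4, _, _⟩ := hE v k' R' G p q h (by omega) (by omega) h3
  exact ⟨u, hu, w, hw, h4⟩

theorem reach_src {G : Set Edg} {g : Edg} {p q : Vtx} (h : Reach G p q) :
    Reach (G \ {g}) p q ∨ Reach G p (src g) := by
  induction h with
  | refl => exact Or.inl (Reach.refl _ _)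
  | tail hpw hs ih =>
    rcases ih with ih | ih
    swap
    · exact Or.inr ih
    obtain ⟨e, he, hc⟩ := hs
    by_cases heg : e = g
    · right
      subst heg
      rcases hc with ⟨h1, h2⟩ | ⟨h1, h2⟩
      · rw [h1]; exact hpw
      · rw [h1]; exact Reach.trans hpw (Adj.reach ⟨e, he, Or.inr ⟨h1, h2⟩⟩)
    · left
      exact ih.trans (Adj.reach ⟨e, ⟨he, heg⟩, hc⟩)

/-- the arms around a pivotal edge -/
theorem det (hE : S_EXI) (hP : S_PIV1) {G : Set Edg} {g : Edg} {v c : Vtx} {k R s : ℕ}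
    (hk : 1 ≤ k) (hks : 32 * k ≤ s) (hsR : 4 * s ≤ R) (hs : sd v c = s) (hc : sd c (src g) ≤ 1)
    (h1 : Cr v k R G) (h2 : ¬ Cr v k R (G \ {g})) :
    Cx v k (s / 2) G ∧ Cx v (2 * s) R G ∧ (∀ m, 1 ≤ m → m ≤ s / 8 → A4a (src g) 1 m G) ∧
      (∀ m, m + 3 ≤ s / 4 → Cx c (m + 3) (s / 4) G) := by
  have h1' := h1
  obtain ⟨p, q, hp, hq, hr⟩ := h1
  have hn : ¬ Reach (G \ {g}) p q := fun h => h2 ⟨p, q, hp, hq, h⟩
  have hg : Reach G p (src g) := (reach_src hr).resolve_left hn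
  have t1 := sd_tri v p c
  have t2 := sd_tri v c q
  have t3 := sd_tri c (src g) p
  have t4 := sd_tri c (src g) q
  have t5 := sd_comm p c
  have t6 : sd c q ≤ sd c (src g) + sd (src g) q := t4
  refine ⟨Cr_Cx hE le_rfl (by omega) (by omega) h1', Cr_Cx hE (by omega) (by omega) le_rfl h1',
    ?_, ?_⟩
  · intro m hm hms
    exact hP G g p q m hm hr hn (by omega) (by omega)
  · intro m hm
    obtain ⟨u, hu, w, hw, h4, _, _⟩ := hE c (m + 3) (s / 4) G (src g) p hm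
      (by push_cast; omega) (by push_cast; omega) hg.symm
    exact ⟨u, hu, w, hw, h4⟩

end Pool.Agent.Zk36.NS
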