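import Pool.Agent.Zk36.NS.R1Det

/-!
# Module REC1 (for helper72): the step of the induction
-/

set_option autoImplicit false

namespace Pool.Agent.Zk36.NS

open H974 Finset H342P H984P H984N H12S H389NS Pool.Agent.Zk36.TT Pool.Agent.W92.DP
  Pool.Agent.Zk72.NS

theorem numeric {k s m R : ℕ} (hk : 1 ≤ k) (hs : 32 * k ≤ s) (hR : 4 * s ≤ R) :
    ((k:ℝ) / ((s / 2 : ℕ) : ℝ)) ^ (1/3:ℝ) * (((m:ℝ) + 1) ^ (-(5/4):ℝ) *
      ((((m + 3 : ℕ):ℝ) / ((s / 4 : ℕ) : ℝ)) ^ (1/3:ℝ) * (((2 * s : ℕ):ℝ) / R) ^ (1/3:ℝ))) ≤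
      6 * ((k:ℝ) / R) ^ (1/3:ℝ) * (((m:ℝ) + 1) ^ (-(11/12):ℝ) * (s:ℝ) ^ (-(1/3):ℝ)) := by
  have hk0 : (0:ℝ) < k := by exact_mod_cast hk
  have hs0 : (0:ℝ) < s := by
    have : 0 < s := by omega
    exact_mod_cast this
  have hR0 : (0:ℝ) < R := by
    have : 0 < R := by omega
    exact_mod_cast this
  have hm0 : (0:ℝ) < (m:ℝ) + 1 := by positivity
  have hs2 : (0:ℝ) < ((s / 2 : ℕ) : ℝ) := by
    have : 0 < s / 2 := by omega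
    exact_mod_cast this
  have hs4 : (0:ℝ) < ((s / 4 : ℕ) : ℝ) := by
    have : 0 < s / 4 := by omega
    exact_mod_cast this
  have x1 : (k:ℝ) / ((s / 2 : ℕ) : ℝ) ≤ 3 * (k / s) := by
    rw [mul_div_assoc', div_le_div_iff₀ hs2 hs0]
    have h1 : s ≤ 3 * (s / 2) := by omega
    have h2 : (s:ℝ) ≤ 3 * ((s / 2 : ℕ) : ℝ) := by exact_mod_cast h1
    nlinarith
  have x2 : ((m + 3 : ℕ):ℝ) / ((s / 4 : ℕ) : ℝ) ≤ 24 * ((m + 1) / s) := by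
    rw [mul_div_assoc', div_le_div_iff₀ hs4 hs0]
    have h1 : s ≤ 8 * (s / 4) := by omega
    have h2 : (s:ℝ) ≤ 8 * ((s / 4 : ℕ) : ℝ) := by exact_mod_cast h1
    push_cast
    nlinarith [(Nat.cast_nonneg m : (0:ℝ) ≤ m)]
  have y1 := Real.rpow_le_rpow (by positivity) x1 (by norm_num : (0:ℝ) ≤ 1/3)
  have y2 := Real.rpow_le_rpow (by positivity) x2 (by norm_num : (0:ℝ) ≤ 1/3)
  have e : (3 * ((k:ℝ) / s)) ^ (1/3:ℝ) * ((24 * (((m:ℝ) + 1) / s)) ^ (1/3:ℝ) *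
      (((2 * s : ℕ):ℝ) / R) ^ (1/3:ℝ)) ≤
      6 * ((k:ℝ) / R) ^ (1/3:ℝ) * (((m:ℝ) + 1) ^ (1/3:ℝ) * (s:ℝ) ^ (-(1/3):ℝ)) := by
    rw [← Real.mul_rpow (by positivity) (by positivity),
      ← Real.mul_rpow (by positivity) (by positivity)]
    have e2 : (6:ℝ) * ((k:ℝ) / R) ^ (1/3:ℝ) * (((m:ℝ) + 1) ^ (1/3:ℝ) * (s:ℝ) ^ (-(1/3):ℝ)) =
        (216 * (((k:ℝ) / R) * (((m:ℝ) + 1) * (s:ℝ)⁻¹))) ^ (1/3:ℝ) := by
      rw [Real.mul_rpow (by norm_num) (by positivity), Real.mul_rpow (by positivity) (by positivity),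
        Real.mul_rpow (by positivity) (by positivity), Real.inv_rpow hs0.le, ← Real.rpow_neg hs0.le,
        show (216:ℝ) = 6 ^ (3:ℝ) by norm_num, ← Real.rpow_mul (by norm_num)]
      norm_num
      ring
    rw [e2]
    apply Real.rpow_le_rpow (by positivity) _ (by norm_num)
    have e3 : (3:ℝ) * (k / s) * (24 * ((m + 1) / s) * (((2 * s : ℕ):ℝ) / R)) =
        144 * (((k:ℝ) / R) * (((m:ℝ) + 1) * (s:ℝ)⁻¹)) := by
      push_cast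
      field_simp
      ring
    rw [e3]
    apply mul_le_mul_of_nonneg_right (by norm_num) (by positivity)
  have e4 : ((m:ℝ) + 1) ^ (-(5/4):ℝ) * ((m:ℝ) + 1) ^ (1/3:ℝ) = ((m:ℝ) + 1) ^ (-(11/12):ℝ) := by
    rw [← Real.rpow_add hm0]
    norm_num
  have hz : 0 ≤ (((2 * s : ℕ):ℝ) / R) ^ (1/3:ℝ) := by positivity
  have hw : 0 ≤ ((m:ℝ) + 1) ^ (-(5/4):ℝ) := by positivity
  calc ((k:ℝ) / ((s / 2 : ℕ) : ℝ)) ^ (1/3:ℝ) * (((m:ℝ) + 1) ^ (-(5/4):ℝ) *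
      ((((m + 3 : ℕ):ℝ) / ((s / 4 : ℕ) : ℝ)) ^ (1/3:ℝ) * (((2 * s : ℕ):ℝ) / R) ^ (1/3:ℝ)))
      ≤ (3 * ((k:ℝ) / s)) ^ (1/3:ℝ) * (((m:ℝ) + 1) ^ (-(5/4):ℝ) *
      ((24 * (((m:ℝ) + 1) / s)) ^ (1/3:ℝ) * (((2 * s : ℕ):ℝ) / R) ^ (1/3:ℝ))) := by
        apply mul_le_mul y1 _ (by positivity) (by positivity)
        apply mul_le_mul_of_nonneg_left _ hw
        exact mul_le_mul_of_nonneg_right y2 hz
    _ = ((m:ℝ) + 1) ^ (-(5/4):ℝ) * ((3 * ((k:ℝ) / s)) ^ (1/3:ℝ) *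
      ((24 * (((m:ℝ) + 1) / s)) ^ (1/3:ℝ) * (((2 * s : ℕ):ℝ) / R) ^ (1/3:ℝ))) := by ring
    _ ≤ ((m:ℝ) + 1) ^ (-(5/4):ℝ) * (6 * ((k:ℝ) / R) ^ (1/3:ℝ) *
      (((m:ℝ) + 1) ^ (1/3:ℝ) * (s:ℝ) ^ (-(1/3):ℝ))) := mul_le_mul_of_nonneg_left e hw
    _ = 6 * ((k:ℝ) / R) ^ (1/3:ℝ) * ((((m:ℝ) + 1) ^ (-(5/4):ℝ) * ((m:ℝ) + 1) ^ (1/3:ℝ)) *
      (s:ℝ) ^ (-(1/3):ℝ)) := by ring
    _ = _ := by rw [e4]

/-- membership in the set of edges -/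
theorem mem_WW {a₁ a₂ b₁ b₂ : ℤ} {v : Vtx} {k R : ℕ} {f : Edg} :
    f ∈ WW a₁ a₂ b₁ b₂ v k R ↔ f ∈ RE a₁ a₂ b₁ b₂ ∧ 32 * k ≤ (sd v (src f)).toNat ∧
      4 * (sd v (src f)).toNat ≤ R := by
  unfold WW
  rw [Finset.mem_filter]

theorem src_in {a₁ a₂ b₁ b₂ : ℤ} {f : Edg} (h : f ∈ RE a₁ a₂ b₁ b₂) :
    inR a₁ a₂ b₁ b₂ (src f) := by
  obtain ⟨x, y, _ | _⟩ := f
  · rw [mem_RE_false] at h
    simp only [src_mk, inR]
    omega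
  · rw [mem_RE_true] at h
    simp only [src_mk, inR]
    omega

/-- the box of the four arms -/
theorem blk_in {a₁ a₂ b₁ b₂ : ℤ} {v : Vtx} {b : Bool} {f : Edg}
    (hm : 1 ≤ ms a₁ a₂ b₁ b₂ v (src f)) :
    blk (src (gm b f)) (ms a₁ a₂ b₁ b₂ v (src f) + 1) ⊆ RE a₁ a₂ b₁ b₂ := by
  have h1 := (sd_le).1 (gm_src b f)
  generalize src (gm b f) = c at h1 ⊢
  have h2 : (ms a₁ a₂ b₁ b₂ v (src f) : ℤ) + 2 ≤ bdS a₁ a₂ b₁ b₂ (src f) := by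
    unfold ms at hm ⊢
    omega
  generalize ms a₁ a₂ b₁ b₂ v (src f) = m at h2 hm ⊢
  unfold bdS at h2
  unfold blk
  apply RE_subset <;> push_cast <;> omega

/-- the four events around a pivotal edge -/
def DD (a₁ a₂ b₁ b₂ : ℤ) (b : Bool) (v : Vtx) (k R : ℕ) (f : Edg) (U B : Finset Edg) : Prop :=
  Sw (fun F => Cx v k ((sd v (src f)).toNat / 2) (gS (RE a₁ a₂ b₁ b₂) b F)) U B ∧
  (Sw (F4m b (src (gm b f)) (ms a₁ a₂ b₁ b₂ v (src f))) U B ∧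
  (Sw (fun F => Cx (src f) (ms a₁ a₂ b₁ b₂ v (src f) + 3) ((sd v (src f)).toNat / 4)
    (gS (RE a₁ a₂ b₁ b₂) b F)) U B ∧
  Sw (fun F => Cx v (2 * (sd v (src f)).toNat) R (gS (RE a₁ a₂ b₁ b₂) b F)) U B))

/-- the edges on which they depend -/
noncomputable def TT (a₁ a₂ b₁ b₂ : ℤ) (b : Bool) (v : Vtx) (k R : ℕ) (f : Edg) : Finset Edg :=
  rF (RE a₁ a₂ b₁ b₂) b v k ((sd v (src f)).toNat / 2) ∪
  (rF (RE a₁ a₂ b₁ b₂) b (src (gm b f)) 1 (ms a₁ a₂ b₁ b₂ v (src f)) ∪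
  (rF (RE a₁ a₂ b₁ b₂) b (src f) (ms a₁ a₂ b₁ b₂ v (src f) + 3) ((sd v (src f)).toNat / 4) ∪
  rF (RE a₁ a₂ b₁ b₂) b v (2 * (sd v (src f)).toNat) R))

theorem DD_loc (a₁ a₂ b₁ b₂ : ℤ) (b : Bool) (v : Vtx) (k R : ℕ) (f : Edg) :
    Lc (TT a₁ a₂ b₁ b₂ b v k R f) (DD a₁ a₂ b₁ b₂ b v k R f) :=
  Lc_and (Lc_Cx _ _ _ _ _) (Lc_and (Lc_F4m fun h => blk_in h)
    (Lc_and (Lc_Cx _ _ _ _ _) (Lc_Cx _ _ _ _ _)))

theorem TT_sub (a₁ a₂ b₁ b₂ : ℤ) (b : Bool) (v : Vtx) (k R : ℕ) (f : Edg) :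
    TT a₁ a₂ b₁ b₂ b v k R f ⊆ RE a₁ a₂ b₁ b₂ :=
  Finset.union_subset (rF_sub _ _ _ _ _) (Finset.union_subset (rF_sub _ _ _ _ _)
    (Finset.union_subset (rF_sub _ _ _ _ _) (rF_sub _ _ _ _ _)))

theorem ms_le (a₁ a₂ b₁ b₂ : ℤ) (v w : Vtx) : ms a₁ a₂ b₁ b₂ v w ≤ (sd v w).toNat / 8 := by
  unfold ms
  exact min_le_right _ _

theorem TT_not {a₁ a₂ b₁ b₂ : ℤ} {b : Bool} {v : Vtx} {k R : ℕ} {f : Edg} (hk : 1 ≤ k)
    (hf : f ∈ WW a₁ a₂ b₁ b₂ v k R) : f ∉ TT a₁ a₂ b₁ b₂ b v k R f := by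
  have h1 := mem_WW.1 hf
  have h2 := sd_cast v (src f)
  have h3 := gm_src b f
  have h4 := gm_tgt b f
  have h5 := ms_le a₁ a₂ b₁ b₂ v (src f)
  have t1 := sd_tri v (src (gm b f)) (src f)
  have t2 := sd_tri v (src f) (src (gm b f))
  have t3 := sd_tri v (src f) (tgt (gm b f))
  have t4 := sd_comm (src (gm b f)) (src f)
  have t5 := sd_tri (src (gm b f)) (src f) (tgt (gm b f))
  have t6 : sd (src (gm b f)) (src (gm b f)) = 0 := by simp [sd]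
  have t7 : sd (src (gm b f)) (tgt (gm b f)) ≤ 1 := by
    have : ∀ g : Edg, sd (src g) (tgt g) ≤ 1 := by
      rintro ⟨x, y, _ | _⟩ <;> simp [sd]
    exact this _
  unfold TT
  rw [Finset.mem_union, Finset.mem_union, Finset.mem_union, mem_rF, mem_rF, mem_rF, mem_rF,
    mem_blk, mem_blk, mem_blk, mem_blk, mem_blk, mem_blk, mem_blk, mem_blk]
  generalize ms a₁ a₂ b₁ b₂ v (src f) = m at h5 ⊢
  generalize (sd v (src f)).toNat = s at h1 h2 h5 ⊢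
  push_cast
  rintro (h | h | h | h)
  · omega
  · omega
  · omega
  · omega

theorem dis_far {S : Finset Edg} {b : Bool} {v w : Vtx} {d k d' k' : ℕ}
    (h : ∀ c, sd v c ≤ k → sd w c ≤ k' → False) :
    Disjoint (rF S b v d k) (rF S b w d' k') := by
  rw [Finset.disjoint_left]
  intro g h1 h2
  rw [mem_rF, mem_blk] at h1 h2
  exact h _ h1.2.1.1 h2.2.1.1

theorem dis_in {S : Finset Edg} {b : Bool} {v w : Vtx} {d k d' k' : ℕ}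
    (h : ∀ c, sd v c ≤ k → sd w c ≤ d') :
    Disjoint (rF S b v d k) (rF S b w d' k') := by
  rw [Finset.disjoint_left]
  intro g h1 h2
  rw [mem_rF, mem_blk] at h1
  rw [mem_rF, mem_blk, mem_blk] at h2
  exact h2.2.2 ⟨h _ h1.2.1.1, h _ h1.2.1.2⟩

/-- independence -/
theorem DD_prob {a₁ a₂ b₁ b₂ : ℤ} {b : Bool} {v : Vtx} {k R : ℕ} {f : Edg} (ε : ℝ) (hk : 1 ≤ k)
    (hf : f ∈ WW a₁ a₂ b₁ b₂ v k R) :
    Q ε (RE a₁ a₂ b₁ b₂) (DD a₁ a₂ b₁ b₂ b v k R f) =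
      Q ε (RE a₁ a₂ b₁ b₂) (Sw (fun F => Cx v k ((sd v (src f)).toNat / 2)
        (gS (RE a₁ a₂ b₁ b₂) b F))) *
      (Q ε (RE a₁ a₂ b₁ b₂) (Sw (F4m b (src (gm b f)) (ms a₁ a₂ b₁ b₂ v (src f)))) *
      (Q ε (RE a₁ a₂ b₁ b₂) (Sw (fun F => Cx (src f) (ms a₁ a₂ b₁ b₂ v (src f) + 3)
        ((sd v (src f)).toNat / 4) (gS (RE a₁ a₂ b₁ b₂) b F))) *
      Q ε (RE a₁ a₂ b₁ b₂) (Sw (fun F => Cx v (2 * (sd v (src f)).toNat) R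
        (gS (RE a₁ a₂ b₁ b₂) b F))))) := by
  have h1 := mem_WW.1 hf
  have h2 := sd_cast v (src f)
  have h3 := gm_src b f
  have h5 := ms_le a₁ a₂ b₁ b₂ v (src f)
  have hL4 : 1 ≤ ms a₁ a₂ b₁ b₂ v (src f) →
      blk (src (gm b f)) (ms a₁ a₂ b₁ b₂ v (src f) + 1) ⊆ RE a₁ a₂ b₁ b₂ := fun h => blk_in h
  unfold DD
  generalize ms a₁ a₂ b₁ b₂ v (src f) = m at h5 hL4 ⊢
  generalize (sd v (src f)).toNat = s at h1 h2 h5 ⊢
  have e1 := Q_and (ε := ε) (rF_sub (RE a₁ a₂ b₁ b₂) b v k (s / 2))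
    (Finset.union_subset (rF_sub _ b (src (gm b f)) 1 m) (Finset.union_subset
      (rF_sub _ b (src f) (m + 3) (s / 4)) (rF_sub _ b v (2 * s) R)))
    (by
      rw [Finset.disjoint_union_right, Finset.disjoint_union_right]
      refine ⟨dis_far fun c c1 c2 => ?_, dis_far fun c c1 c2 => ?_, dis_in fun c c1 => ?_⟩
      · have t1 := sd_tri v c (src f)
        have t2 := sd_tri c (src (gm b f)) (src f)
        have t3 := sd_comm (src (gm b f)) c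
        have t4 := sd_comm (src (gm b f)) (src f)
        omega
      · have t1 := sd_tri v c (src f)
        have t3 := sd_comm (src f) c
        omega
      · push_cast
        omega)
    (Lc_Cx _ _ _ _ _) (Lc_and (Lc_F4m hL4) (Lc_and (Lc_Cx _ _ _ _ _) (Lc_Cx _ _ _ _ _)))
  have e2 := Q_and (ε := ε) (rF_sub (RE a₁ a₂ b₁ b₂) b (src (gm b f)) 1 m)
    (Finset.union_subset (rF_sub _ b (src f) (m + 3) (s / 4)) (rF_sub _ b v (2 * s) R))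
    (by
      rw [Finset.disjoint_union_right]
      refine ⟨dis_in fun c c1 => ?_, dis_in fun c c1 => ?_⟩
      · have t1 := sd_tri (src f) (src (gm b f)) c
        push_cast
        omega
      · have t1 := sd_tri (src f) (src (gm b f)) c
        have t2 := sd_tri v (src f) c
        push_cast
        omega)
    (Lc_F4m hL4) (Lc_and (Lc_Cx _ _ _ _ _) (Lc_Cx _ _ _ _ _))
  have e3 := Q_and (ε := ε) (rF_sub (RE a₁ a₂ b₁ b₂) b (src f) (m + 3) (s / 4))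
    (rF_sub _ b v (2 * s) R)
    (dis_in fun c c1 => by
      have t2 := sd_tri v (src f) c
      push_cast
      omega)
    (Lc_Cx _ _ _ _ _) (Lc_Cx _ _ _ _ _)
  rw [e1, e2, e3]

theorem A4a_gS {S : Finset Edg} {b : Bool} {c : Vtx} {m : ℕ} {F : Finset Edg}
    (hS : blk c (m + 1) ⊆ S) (h : A4a c 1 m (gS S b F)) : F4 b c 1 m F := by
  unfold Pool.Agent.Zk72.NS.F4
  unfold A4a at h ⊢
  rw [gS_gd (b := b) (F := F) (S := S)] at h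
  · exact h
  · intro g hg
    exact hS (rg_sub b c 1 m (mem_rg.2 (Finset.mem_coe.1 hg)))

/-- the deterministic part of the step -/
theorem det_step (hE : S_EXI) (hP : S_PIV1) (hCH : S_CHN) {a₁ a₂ b₁ b₂ : ℤ} {b : Bool} {v : Vtx}
    {k R : ℕ} (hk : 1 ≤ k) (hkR : 144 * k ≤ R) {U B : Finset Edg}
    (h : Sw (fun F => Cx v k R (gS (RE a₁ a₂ b₁ b₂) b F)) U B) :
    Cx v (32 * k + 2) (R / 4 - 2) (gS (RE a₁ a₂ b₁ b₂) b B) ∨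
      ∃ f ∈ WW a₁ a₂ b₁ b₂ v k R, f ∈ U ∧ DD a₁ a₂ b₁ b₂ b v k R f U B := by
  obtain ⟨F, hF, hC⟩ := h
  rcases hCH U B F (WW a₁ a₂ b₁ b₂ v k R) (fun F => Cr v k R (gS (RE a₁ a₂ b₁ b₂) b F)) hF
    (Cx_Cr hC) with h | ⟨F₁, f, h1, h2, h3, h4, h5⟩
  · left
    have h1 := Cr_Cx hE (k' := 32 * k + 2) (R' := R / 4 - 2) (by omega) (by omega) (by omega) h
    unfold Cx at h1 ⊢
    rw [gS_congr (F' := B)] at h1
    · exact h1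
    · intro g hg hY
      rw [Finset.mem_coe, Finset.mem_sdiff, mem_blk, mem_blk] at hY
      have hW : g ∈ WW a₁ a₂ b₁ b₂ v k R := by
        rw [mem_WW]
        refine ⟨hg, ?_⟩
        have g1 := sd_cast v (src g)
        have g2 := gm_src b g
        have g3 := gm_tgt b g
        have t1 := sd_tri v (src (gm b g)) (src g)
        have t2 := sd_tri v (src g) (src (gm b g))
        have t3 := sd_tri v (src g) (tgt (gm b g))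
        have t4 := sd_comm (src (gm b g)) (src g)
        omega
      simp only [Finset.mem_union, Finset.mem_sdiff, Finset.mem_inter]
      tauto
  · right
    refine ⟨f, h2, h3, ?_⟩
    have hW := mem_WW.1 h2
    have hs := sd_cast v (src f)
    have hn : ¬ Cr v k R (gS (RE a₁ a₂ b₁ b₂) b F₁ \ {gm b f}) := fun h =>
      h5 (Cr_mono (gS_flip _ b F₁ f) h)
    obtain ⟨d1, d2, d3, d4⟩ := det hE hP hk hW.2.1 hW.2.2 hs.symm (gm_src b f) h4 hn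
    have hm := ms_le a₁ a₂ b₁ b₂ v (src f)
    refine ⟨⟨F₁, h1, d1⟩, ⟨F₁, h1, fun hm1 => ?_⟩, ⟨F₁, h1, d4 _ ?_⟩, ⟨F₁, h1, d2⟩⟩
    · exact A4a_gS (blk_in hm1) (d3 _ hm1 hm)
    · omega

end Pool.Agent.Zk36.NS
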