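import Pool.Agent.Zk36.NS.R1Step

/-!
# Module REC1 (for helper72): one arm near a side of a rectangle, for some modification
-/

set_option autoImplicit false

namespace Pool.Agent.Zk36.NS

open H974 Finset H342P H984P H984N H12S H389NS Pool.Agent.Zk36.TT Pool.Agent.W92.DP
  Pool.Agent.Zk72.NS

theorem F4m_bound {S : Finset Edg} {ε C4 : ℝ} (h0 : 0 ≤ ε) (h1 : ε ≤ 1) (hC4 : 1 ≤ C4) {b : Bool}
    {c : Vtx} {m : ℕ}
    (h : 1 ≤ m → Q ε S (Sw (F4 b c 1 m)) ≤ C4 * (((1 : ℕ) : ℝ) / m) ^ (5/4 : ℝ)) :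
    Q ε S (Sw (F4m b c m)) ≤ 3 * C4 * ((m : ℝ) + 1) ^ (-(5/4) : ℝ) := by
  rcases Nat.eq_zero_or_pos m with hm | hm
  · subst hm
    refine (Q_le_one h0 h1 _ _).trans ?_
    norm_num
    linarith
  · have hm0 : (0:ℝ) < m := by exact_mod_cast hm
    have hm1 : (1:ℝ) ≤ m := by exact_mod_cast hm
    have e1 : Q ε S (Sw (F4m b c m)) ≤ Q ε S (Sw (F4 b c 1 m)) :=
      Q_mono h0 h1 fun U B _ _ hF => by
        obtain ⟨F, hF, h2⟩ := hF
        exact ⟨F, hF, h2 hm⟩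
    refine (e1.trans (h hm)).trans ?_
    have e2 : (((1 : ℕ) : ℝ) / m) ^ (5/4 : ℝ) ≤ (2 / ((m : ℝ) + 1)) ^ (5/4 : ℝ) := by
      apply Real.rpow_le_rpow (by positivity) _ (by norm_num)
      rw [div_le_div_iff₀ hm0 (by positivity)]
      push_cast
      linarith
    have e3 : (2 / ((m : ℝ) + 1)) ^ (5/4 : ℝ) = 2 ^ (5/4 : ℝ) * ((m : ℝ) + 1) ^ (-(5/4) : ℝ) := by
      rw [Real.div_rpow (by norm_num) (by positivity), Real.rpow_neg (by positivity)]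
      rfl
    have e4 : (2:ℝ) ^ (5/4 : ℝ) ≤ 3 := by
      have h2 : ((2:ℝ) ^ (5/4 : ℝ)) ^ (4:ℕ) ≤ 3 ^ (4:ℕ) := by
        rw [← Real.rpow_natCast, ← Real.rpow_mul (by norm_num)]
        norm_num
      exact le_of_pow_le_pow_left₀ (by norm_num) (by norm_num) h2
    rw [e3] at e2
    have e5 : 0 ≤ ((m : ℝ) + 1) ^ (-(5/4) : ℝ) := by positivity
    calc C4 * (((1 : ℕ) : ℝ) / m) ^ (5/4 : ℝ)
        ≤ C4 * (2 ^ (5/4 : ℝ) * ((m : ℝ) + 1) ^ (-(5/4) : ℝ)) :=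
          mul_le_mul_of_nonneg_left e2 (by linarith)
      _ ≤ C4 * (3 * ((m : ℝ) + 1) ^ (-(5/4) : ℝ)) := by
          apply mul_le_mul_of_nonneg_left _ (by linarith)
          exact mul_le_mul_of_nonneg_right e4 e5
      _ = _ := by ring

theorem ratio_bound {k R : ℕ} (hk : 1 ≤ k) (hkR : 144 * k ≤ R) :
    (((32 * k + 2 : ℕ) : ℝ) / ((R / 4 - 2 : ℕ) : ℝ)) ^ (1/3 : ℝ) ≤
      7 * ((k : ℝ) / R) ^ (1/3 : ℝ) := by
  have hR0 : (0:ℝ) < R := by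
    have : 0 < R := by omega
    exact_mod_cast this
  have h2 : (0:ℝ) < ((R / 4 - 2 : ℕ) : ℝ) := by
    have : 0 < R / 4 - 2 := by omega
    exact_mod_cast this
  have h3 : (7:ℝ) * ((k : ℝ) / R) ^ (1/3 : ℝ) = (343 * ((k : ℝ) / R)) ^ (1/3 : ℝ) := by
    rw [Real.mul_rpow (by norm_num) (by positivity), show (343:ℝ) = 7 ^ (3:ℝ) by norm_num,
      ← Real.rpow_mul (by norm_num)]
    norm_num
  rw [h3]
  apply Real.rpow_le_rpow (by positivity) _ (by norm_num)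
  rw [mul_div_assoc', div_le_div_iff₀ h2 hR0]
  have h4 : R ≤ 8 * (R / 4 - 2) := by omega
  have h5 : (R:ℝ) ≤ 8 * ((R / 4 - 2 : ℕ) : ℝ) := by exact_mod_cast h4
  have h6 : (1:ℝ) ≤ k := by exact_mod_cast hk
  push_cast at h5 ⊢
  nlinarith

theorem one_le_sixth {k R : ℕ} (hk : 1 ≤ k) (hR : R < 144 * k) (hkR : k ≤ R) :
    1 ≤ 6 * ((k : ℝ) / R) ^ (1/3 : ℝ) := by
  have hR0 : (0:ℝ) < R := by
    have : 0 < R := by omega
    exact_mod_cast this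
  have h3 : (6:ℝ) * ((k : ℝ) / R) ^ (1/3 : ℝ) = (216 * ((k : ℝ) / R)) ^ (1/3 : ℝ) := by
    rw [Real.mul_rpow (by norm_num) (by positivity), show (216:ℝ) = 6 ^ (3:ℝ) by norm_num,
      ← Real.rpow_mul (by norm_num)]
    norm_num
  rw [h3]
  apply Real.one_le_rpow _ (by norm_num)
  rw [mul_div_assoc', le_div_iff₀ hR0]
  have : (R:ℝ) < 144 * k := by exact_mod_cast hR
  linarith

theorem Side_mono {a b c d : ℤ} {v : Vtx} {k R k' R' : ℕ} (hS : Side a b c d v k R) (hk : k ≤ k')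
    (hR : R' ≤ R) : Side a b c d v k' R' := by
  have hk' : (k : ℤ) ≤ k' := by exact_mod_cast hk
  have hR' : (R' : ℤ) ≤ R := by exact_mod_cast hR
  unfold Pool.Agent.Zk72.NS.Side at hS ⊢
  rcases hS with ⟨h1, h2, h3, h4⟩ | ⟨h1, h2, h3, h4⟩ | ⟨h1, h2, h3, h4⟩ | ⟨h1, h2, h3, h4⟩
  · exact Or.inl ⟨h1.trans hk', hR'.trans h2, hR'.trans h3, hR'.trans h4⟩
  · exact Or.inr (Or.inl ⟨h1.trans hk', hR'.trans h2, hR'.trans h3, hR'.trans h4⟩)
  · exact Or.inr (Or.inr (Or.inl ⟨h1.trans hk', hR'.trans h2, hR'.trans h3, hR'.trans h4⟩))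
  · exact Or.inr (Or.inr (Or.inr ⟨h1.trans hk', hR'.trans h2, hR'.trans h3, hR'.trans h4⟩))

/-- the near side of an edge near the side of `v` -/
theorem side_of {a₁ a₂ b₁ b₂ : ℤ} {v : Vtx} {k R : ℕ} {f : Edg} (hk : 1 ≤ k)
    (hS : Side a₁ a₂ b₁ b₂ v k R) (hf : f ∈ WW a₁ a₂ b₁ b₂ v k R)
    (hm : ms a₁ a₂ b₁ b₂ v (src f) < (sd v (src f)).toNat / 8) :
    Side a₁ a₂ b₁ b₂ (src f) (ms a₁ a₂ b₁ b₂ v (src f) + 3) ((sd v (src f)).toNat / 4) := by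
  have h1 := mem_WW.1 hf
  have h2 := sd_cast v (src f)
  have h3 := (sd_le (u := v) (v := src f) (k := sd v (src f))).1 le_rfl
  have h4 := src_in h1.1
  unfold inR at h4
  have h5 : bdS a₁ a₂ b₁ b₂ (src f) ≤ (ms a₁ a₂ b₁ b₂ v (src f) : ℤ) + 2 := by
    unfold ms at hm ⊢
    omega
  generalize ms a₁ a₂ b₁ b₂ v (src f) = m at h5 hm ⊢
  rw [← h2] at h3
  have h6 := h1.2
  clear h1 h2 hf
  generalize (sd v (src f)).toNat = s at h3 h6 hm ⊢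
  generalize src f = w at h3 h4 h5 ⊢
  have h7 : (w.1 - a₁ ≤ (m : ℤ) + 2 ∨ a₂ - w.1 ≤ (m : ℤ) + 2) ∨
      (w.2 - b₁ ≤ (m : ℤ) + 2 ∨ b₂ - w.2 ≤ (m : ℤ) + 2) := by
    unfold bdS at h5
    rw [min_le_iff, min_le_iff, min_le_iff] at h5
    exact h5
  clear h5
  unfold Pool.Agent.Zk72.NS.Side at hS ⊢
  push_cast
  rcases hS with hS | hS | hS | hS
  · left
    refine ⟨?_, ?_, ?_, ?_⟩ <;> omega
  · right; left
    refine ⟨?_, ?_, ?_, ?_⟩ <;> omega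
  · right; right; left
    refine ⟨?_, ?_, ?_, ?_⟩ <;> omega
  · right; right; right
    refine ⟨?_, ?_, ?_, ?_⟩ <;> omega

theorem prob_step {C0 C4 K ε : ℝ} (hC0 : 1 ≤ C0) (hC4 : 1 ≤ C4) (hK : 14 ≤ K) (h0 : 0 ≤ ε)
    (h1 : ε ≤ 1) (hE : S_EXI) (hP : S_PIV1) (hCH : S_CHN) {a₁ a₂ b₁ b₂ : ℤ} {b : Bool}
    (hside : ∀ (v : Vtx) (k R : ℕ), 1 ≤ k → k ≤ R → inR a₁ a₂ b₁ b₂ v →
      Side a₁ a₂ b₁ b₂ v k R → P (RE a₁ a₂ b₁ b₂)
        (fun B => Cx v k R (gS (RE a₁ a₂ b₁ b₂) b B)) ≤ C0 * ((k : ℝ) / R) ^ (1/3 : ℝ))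
    {v : Vtx} {k R : ℕ}
    (h4 : ∀ (c : Vtx) (m : ℕ), 1 ≤ m → m ≤ R → blk c (m + 1) ⊆ RE a₁ a₂ b₁ b₂ →
      Q ε (RE a₁ a₂ b₁ b₂) (Sw (F4 b c 1 m)) ≤ C4 * (((1 : ℕ) : ℝ) / m) ^ (5/4 : ℝ))
    (hk : 1 ≤ k) (hkR : 144 * k ≤ R) (hv : inR a₁ a₂ b₁ b₂ v) (hS : Side a₁ a₂ b₁ b₂ v k R)
    (IH : ∀ (v' : Vtx) (k' R' : ℕ), 1 ≤ k' → k' ≤ R' → R' ≤ R → R' - k' < R - k →
      inR a₁ a₂ b₁ b₂ v' → Side a₁ a₂ b₁ b₂ v' k' R' →
      Q ε (RE a₁ a₂ b₁ b₂) (Sw (fun F => Cx v' k' R' (gS (RE a₁ a₂ b₁ b₂) b F))) ≤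
        K * ((k' : ℝ) / R') ^ (1/3 : ℝ)) :
    Q ε (RE a₁ a₂ b₁ b₂) (Sw (fun F => Cx v k R (gS (RE a₁ a₂ b₁ b₂) b F))) ≤
      (7 * C0 + 1800000 * C4 * K ^ 3 * (ε * (R : ℝ) ^ (3/4 : ℝ))) *
        ((k : ℝ) / R) ^ (1/3 : ℝ) := by
  have hkey := Q_step (ε := ε) (S := RE a₁ a₂ b₁ b₂) h0 h1 (W := WW a₁ a₂ b₁ b₂ v k R)
    (fun f hf => (mem_WW.1 hf).1)
    (A := Sw (fun F => Cx v k R (gS (RE a₁ a₂ b₁ b₂) b F)))
    (C := fun B => Cx v (32 * k + 2) (R / 4 - 2) (gS (RE a₁ a₂ b₁ b₂) b B))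
    (D := DD a₁ a₂ b₁ b₂ b v k R) (T := TT a₁ a₂ b₁ b₂ b v k R)
    (fun f hf => ⟨TT_sub _ _ _ _ _ _ _ _ _, TT_not hk hf, DD_loc _ _ _ _ _ _ _ _ _⟩)
    (fun U B _ _ h => det_step hE hP hCH hk hkR h)
  have hside' := hside v (32 * k + 2) (R / 4 - 2) (by omega) (by omega) hv
    (Side_mono hS (by omega) (by omega))
  have hx : 0 ≤ ((k : ℝ) / R) ^ (1/3 : ℝ) := by positivity
  have hfirst : P (RE a₁ a₂ b₁ b₂)
      (fun B => Cx v (32 * k + 2) (R / 4 - 2) (gS (RE a₁ a₂ b₁ b₂) b B)) ≤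
      7 * C0 * ((k : ℝ) / R) ^ (1/3 : ℝ) := by
    refine hside'.trans ?_
    have := mul_le_mul_of_nonneg_left (ratio_bound hk hkR) (by linarith : 0 ≤ C0)
    refine this.trans (le_of_eq ?_)
    ring
  have hK0 : 0 ≤ K := by linarith
  have hterm : ∀ f ∈ WW a₁ a₂ b₁ b₂ v k R,
      ε * Q ε (RE a₁ a₂ b₁ b₂) (DD a₁ a₂ b₁ b₂ b v k R f) ≤
      (18 * C4 * K ^ 3 * ε * ((k : ℝ) / R) ^ (1/3 : ℝ)) *
        (((ms a₁ a₂ b₁ b₂ v (src f) : ℝ) + 1) ^ (-(11/12) : ℝ) *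
          ((sd v (src f)).toNat : ℝ) ^ (-(1/3) : ℝ)) := by
    intro f hf
    have hW := mem_WW.1 hf
    have hsc := sd_cast v (src f)
    have hsb := (sd_le (u := v) (v := src f) (k := sd v (src f))).1 le_rfl
    rw [← hsc] at hsb
    have hin := src_in hW.1
    have hms := ms_le a₁ a₂ b₁ b₂ v (src f)
    have hsd := fun h => side_of hk hS hf h
    rw [DD_prob ε hk hf]
    have hL4 : 1 ≤ ms a₁ a₂ b₁ b₂ v (src f) →
      blk (src (gm b f)) (ms a₁ a₂ b₁ b₂ v (src f) + 1) ⊆ RE a₁ a₂ b₁ b₂ := fun h => blk_in h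
    generalize ms a₁ a₂ b₁ b₂ v (src f) = m at hms hsd hL4 ⊢
    generalize (sd v (src f)).toNat = s at hW hsb hms hsd ⊢
    have r1 : k ≤ s / 2 := by clear hS hv hsb hin; omega
    have r2 : s / 2 ≤ R := by clear hS hv hsb hin; omega
    have r3 : s / 2 - k < R - k := by clear hS hv hsb hin; omega
    have r4 : R - 2 * s < R - k := by clear hS hv hsb hin; omega
    have r5 : k ≤ 2 * s := by clear hS hv hsb hin; omega
    have r6 : 2 * s ≤ R := by clear hS hv hsb hin; omega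
    have r7 : 1 ≤ 2 * s := by clear hS hv hsb hin; omega
    have r8 : m + 3 ≤ s / 4 := by clear hS hv hsb hin; omega
    have r9 : s / 4 ≤ R := by clear hS hv hsb hin; omega
    have r10 : s / 4 - (m + 3) < R - k := by clear hS hv hsb hin; omega
    have r11 : m ≤ R := by clear hS hv hsb hin; omega
    have q1 := IH v k (s / 2) hk r1 r2 r3 hv (Side_mono hS le_rfl r2)
    have q2 := F4m_bound h0 h1 hC4 (fun hm => h4 (src (gm b f)) m hm r11 (hL4 hm))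
    have q4 := IH v (2 * s) R r7 r6 le_rfl r4 hv (Side_mono hS r5 le_rfl)
    have q3 : Q ε (RE a₁ a₂ b₁ b₂) (Sw (fun F => Cx (src f) (m + 3) (s / 4)
        (gS (RE a₁ a₂ b₁ b₂) b F))) ≤
        K * (((m + 3 : ℕ) : ℝ) / ((s / 4 : ℕ) : ℝ)) ^ (1/3 : ℝ) := by
      rcases Nat.lt_or_ge m (s / 8) with hm | hm
      · exact IH (src f) (m + 3) (s / 4) (Nat.le_add_left 1 (m + 2)) r8 r9 r10 hin (hsd hm)
      · refine (Q_le_one h0 h1 _ _).trans ?_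
        have g1 : (0:ℝ) < ((s / 4 : ℕ) : ℝ) := by
          have : 0 < s / 4 := by clear hS hv hsb hin; omega
          exact_mod_cast this
        have g2 : (1/8:ℝ) ≤ ((m + 3 : ℕ) : ℝ) / ((s / 4 : ℕ) : ℝ) := by
          rw [div_le_div_iff₀ (by norm_num) g1]
          have : s / 4 ≤ (m + 3) * 8 := by clear hS hv hsb hin; omega
          have h3 : ((s / 4 : ℕ) : ℝ) ≤ ((m + 3 : ℕ) : ℝ) * 8 := by exact_mod_cast this
          linarith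
        have g3 := Real.rpow_le_rpow (by norm_num) g2 (by norm_num : (0:ℝ) ≤ 1/3)
        have g4 : ((1:ℝ)/8) ^ (1/3 : ℝ) = 1/2 := by
          rw [show (1:ℝ)/8 = (1/2) ^ (3:ℝ) by norm_num, ← Real.rpow_mul (by norm_num)]
          norm_num
        rw [g4] at g3
        nlinarith
    have n1 := Q_nonneg h0 h1 (RE a₁ a₂ b₁ b₂) (Sw (F4m b (src (gm b f)) m))
    have n2 := Q_nonneg h0 h1 (RE a₁ a₂ b₁ b₂) (Sw (fun F => Cx (src f) (m + 3) (s / 4)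
        (gS (RE a₁ a₂ b₁ b₂) b F)))
    have n3 := Q_nonneg h0 h1 (RE a₁ a₂ b₁ b₂) (Sw (fun F => Cx v (2 * s) R
        (gS (RE a₁ a₂ b₁ b₂) b F)))
    have p1 := mul_le_mul q3 q4 n3 (by positivity)
    have p2 := mul_le_mul q2 p1 (mul_nonneg n2 n3) (by positivity)
    have p3 := mul_le_mul q1 p2 (mul_nonneg n1 (mul_nonneg n2 n3)) (by positivity)
    have hnum := numeric (k := k) (s := s) (m := m) (R := R) hk hW.2.1 hW.2.2
    have hc : 0 ≤ 3 * C4 * K ^ 3 := by positivity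
    have p4 := mul_le_mul_of_nonneg_left hnum hc
    have p5 := mul_le_mul_of_nonneg_left (p3.trans (le_of_eq_of_le (by ring) p4)) h0
    refine p5.trans (le_of_eq ?_)
    ring
  have hsum : ∑ f ∈ WW a₁ a₂ b₁ b₂ v k R,
      ε * Q ε (RE a₁ a₂ b₁ b₂) (DD a₁ a₂ b₁ b₂ b v k R f) ≤
      (18 * C4 * K ^ 3 * ε * ((k : ℝ) / R) ^ (1/3 : ℝ)) *
        ∑ f ∈ WW a₁ a₂ b₁ b₂ v k R, (((ms a₁ a₂ b₁ b₂ v (src f) : ℝ) + 1) ^ (-(11/12) : ℝ) *
          ((sd v (src f)).toNat : ℝ) ^ (-(1/3) : ℝ)) := by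
    rw [Finset.mul_sum]
    exact Finset.sum_le_sum hterm
  have hSW := sum_WW a₁ a₂ b₁ b₂ v k R hk (by omega) hv hS
  have hc : 0 ≤ 18 * C4 * K ^ 3 * ε * ((k : ℝ) / R) ^ (1/3 : ℝ) := by positivity
  have h6 := mul_le_mul_of_nonneg_left hSW hc
  refine (hkey.trans (add_le_add hfirst (hsum.trans h6))).trans (le_of_eq ?_)
  ring

/-- the induction -/
theorem main (hSI : S_SIDE) (hA : S_A4U) (hCH : S_CHN) (hE : S_EXI) (hP : S_PIV1) :
    ∃ K c : ℝ, 1 ≤ K ∧ 0 < c ∧ ∀ (ε : ℝ) (b : Bool) (a₁ a₂ b₁ b₂ : ℤ), 0 ≤ ε → ε ≤ 1 →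
      ∀ (n : ℕ) (v : Vtx) (k R : ℕ), R - k ≤ n → 1 ≤ k → k ≤ R → ε * (R : ℝ) ^ (3/4 : ℝ) ≤ c →
      inR a₁ a₂ b₁ b₂ v → Side a₁ a₂ b₁ b₂ v k R →
      Q ε (RE a₁ a₂ b₁ b₂) (Sw (fun F => Cx v k R (gS (RE a₁ a₂ b₁ b₂) b F))) ≤
        K * ((k : ℝ) / R) ^ (1/3 : ℝ) := by
  obtain ⟨C0, hC0, hside⟩ := hSI
  obtain ⟨C4, c4, hC4, hc4, h4⟩ := hA
  set K : ℝ := 14 * C0 with hKdef
  have hK : 14 ≤ K := by linarith
  have hK0 : 0 < K := by linarith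
  refine ⟨K, min c4 (1 / (3600000 * C4 * K ^ 2)), by linarith, lt_min hc4 (by positivity), ?_⟩
  intro ε b a₁ a₂ b₁ b₂ h0 h1 n
  induction n with
  | zero =>
    intro v k R hn hk hkR hc hv hS
    have hR : R < 144 * k := by omega
    refine (Q_le_one h0 h1 _ _).trans ?_
    have := one_le_sixth hk hR hkR
    have hx : 0 ≤ ((k : ℝ) / R) ^ (1/3 : ℝ) := by positivity
    nlinarith
  | succ n ih =>
    intro v k R hn hk hkR hc hv hS
    rcases Nat.lt_or_ge R (144 * k) with hR | hR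
    · refine (Q_le_one h0 h1 _ _).trans ?_
      have := one_le_sixth hk hR hkR
      have hx : 0 ≤ ((k : ℝ) / R) ^ (1/3 : ℝ) := by positivity
      nlinarith
    · have hcm := le_min_iff.1 hc
      have hmono : ∀ m : ℕ, m ≤ R → ε * (m : ℝ) ^ (3/4 : ℝ) ≤ ε * (R : ℝ) ^ (3/4 : ℝ) := by
        intro m hm
        apply mul_le_mul_of_nonneg_left _ h0
        apply Real.rpow_le_rpow (by positivity) (by exact_mod_cast hm) (by norm_num)
      have hsd : ∀ (v : Vtx) (k R : ℕ), 1 ≤ k → k ≤ R → inR a₁ a₂ b₁ b₂ v →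
          Side a₁ a₂ b₁ b₂ v k R → P (RE a₁ a₂ b₁ b₂)
          (fun B => Cx v k R (gS (RE a₁ a₂ b₁ b₂) b B)) ≤ C0 * ((k : ℝ) / R) ^ (1/3 : ℝ) := by
        intro v k R hk hkR hv hS
        obtain ⟨s1, s2⟩ := hside a₁ a₂ b₁ b₂ v k R hk hkR hv hS
        have hb : ∀ {u : Vtx} {r : ℕ}, u ∈ bdB v r →
            inR (v.1 - r) (v.1 + r) (v.2 - r) (v.2 + r) u := by
          intro u r hu
          have := (sd_le (k := (r:ℤ))).1 (bdB_sd hu).le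
          unfold inR
          omega
        have hb' : ∀ {u : Vtx} {r : ℕ}, u ∈ bdB v r →
            (u.1 ≤ v.1 - r ∨ v.1 + r ≤ u.1 ∨ u.2 ≤ v.2 - r ∨ v.2 + r ≤ u.2) := by
          intro u r hu
          exact (le_sd (k := (r:ℤ))).1 (bdB_sd hu).ge
        cases b
        · refine le_trans (Pr_mono ok_half fun B hB h => ?_) s2
          obtain ⟨u, hu, w, hw, hr⟩ := h
          refine ⟨u, w, hb hu, hb' hw, ?_⟩
          rw [← reach_dl]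
          refine hr.mono ?_
          intro x hx
          have := hx.1
          unfold gS at this
          rw [if_neg (by simp)] at this
          exact this
        · refine le_trans (Pr_mono ok_half fun B hB h => ?_) s1
          obtain ⟨u, hu, w, hw, hr⟩ := h
          refine ⟨u, w, hb hu, hb' hw, hr.mono ?_⟩
          intro x hx
          have := hx.1
          unfold gS at this
          rw [if_pos rfl] at this
          exact (Finset.mem_inter.1 (Finset.mem_coe.1 this)).1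
      have hstep := prob_step (C0 := C0) (C4 := C4) (K := K) (ε := ε) (b := b) hC0 hC4 hK h0 h1 hE hP
        hCH hsd (v := v) (k := k) (R := R)
        (fun c m hm hmR hblk => h4 ε b c 1 m (RE a₁ a₂ b₁ b₂) h0 h1 le_rfl hm
          ((hmono m hmR).trans hcm.1) hblk)
        hk hR hv hS
        (fun v' k' R' a1 a2 a3 a4 a5 a6 => ih v' k' R' (by omega) a1 a2
          ((hmono R' a3).trans hc) a5 a6)
      refine hstep.trans ?_
      apply mul_le_mul_of_nonneg_right _ (by positivity)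
      have g1 : 1800000 * C4 * K ^ 3 * (ε * (R : ℝ) ^ (3/4 : ℝ)) ≤
          1800000 * C4 * K ^ 3 * (1 / (3600000 * C4 * K ^ 2)) :=
        mul_le_mul_of_nonneg_left hcm.2 (by positivity)
      have g2 : 1800000 * C4 * K ^ 3 * (1 / (3600000 * C4 * K ^ 2)) = K / 2 := by
        field_simp
        norm_num
      linarith

theorem t_REC1 (hSI : S_SIDE) (hA : S_A4U) (hCH : S_CHN) (hE : S_EXI) (hP : S_PIV1) : S_A1U := by
  obtain ⟨K, c, hK, hc, h⟩ := main hSI hA hCH hE hP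
  refine ⟨K, c, hK, hc, ?_⟩
  intro ε a₁ a₂ b₁ b₂ v k R h0 h1 hk hkR he hv hS
  constructor
  · refine le_trans (Q_mono h0 h1 fun U B hU hB hF => ?_)
      (h ε true a₁ a₂ b₁ b₂ h0 h1 (R - k) v k R le_rfl hk hkR he hv hS)
    obtain ⟨F, hF, p, q, h2, h3, h4⟩ := hF
    refine ⟨F, hF, Cr_Cx hE le_rfl hkR le_rfl ⟨p, q, ?_, ?_, ?_⟩⟩
    · rw [sd_le]
      unfold inR at h2
      omega
    · rw [le_sd]
      exact h3
    · have hFS := Btw_sub hU hB hF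
      unfold gS
      rw [if_pos rfl, Finset.inter_eq_left.2 hFS]
      exact h4
  · refine le_trans (Q_mono h0 h1 fun U B hU hB hF => ?_)
      (h ε false a₁ a₂ b₁ b₂ h0 h1 (R - k) v k R le_rfl hk hkR he hv hS)
    obtain ⟨F, hF, p, q, h2, h3, h4⟩ := hF
    refine ⟨F, hF, Cr_Cx hE le_rfl hkR le_rfl ⟨p, q, ?_, ?_, ?_⟩⟩
    · rw [sd_le]
      unfold inR at h2
      omega
    · rw [le_sd]
      exact h3
    · unfold gS
      rw [if_neg (by simp), reach_dl]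
      exact h4

end Pool.Agent.Zk36.NS
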